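import Mathlib
import Pool.Agent.Q136.FracHelly

/-!
# A positive-fraction version of Kirchberger's theorem

For every dimension `d ≥ 1` there is a function `g` with `g ε → 0` as `ε → 0+` such that, if at
least a `(1 - ε)` fraction of the `(d+2)`-subsets `S` of `A ∪ B`, `|A| = |B| = N`, are good
(`A ∩ S` and `B ∩ S` are separated by a hyperplane), then there are `A' ⊆ A` and `B' ⊆ B`,
separated by a hyperplane, with at least `(1 - g ε) N` points each.

General position is not needed as soon as there are `(d+2)`-subsets at all, that is for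
`2 N ≥ d + 2`.  For `2 N ≤ d + 1` there are no `(d+2)`-subsets, and the points are assumed to be in
general position in the usual sense.
-/

open Finset Module

namespace Pool.Agent.Results.MP_ff3a4f_co.PositiveFraction

/-- The space `ℝ^d`. -/
abbrev Pt (d : ℕ) : Type := EuclideanSpace ℝ (Fin d)

/-- Some affine hyperplane `{x | ⟨u, x⟩ = c}`, `u ≠ 0`, has `P` in one of its open half-spaces and
`Q` in the other one.  (For `d ≥ 1` and finite sets this holds whenever `P` or `Q` is empty.) -/
def Separated {d : ℕ} (P Q : Finset (Pt d)) : Prop :=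
  ∃ (u : Pt d) (c : ℝ), u ≠ 0 ∧ (∀ x ∈ P, c < inner ℝ u x) ∧ (∀ x ∈ Q, inner ℝ u x < c)

/-- General position: any at most `d + 1` of the points are affinely independent. (If `P` has at
least `d + 1` points, this says that no `d + 1` of them lie on a common hyperplane.) -/
def GeneralPosition {d : ℕ} (P : Finset (Pt d)) : Prop :=
  ∀ T ⊆ P, T.card ≤ d + 1 → AffineIndependent ℝ (fun x : T => (x : Pt d))

lemma separated_empty_right {d : ℕ} (hd : 1 ≤ d) (P : Finset (Pt d)) : Separated P ∅ := by
  refine ⟨EuclideanSpace.single ⟨0, hd⟩ 1, -(∑ x ∈ P, |inner ℝ (EuclideanSpace.single (⟨0, hd⟩ : Fin d) (1:ℝ)) x|) - 1, ?_, ?_, by simp⟩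
  · intro h
    have := congrArg norm h
    simp at this
  · intro x hx
    have h1 := single_le_sum (f := fun x => |inner ℝ (EuclideanSpace.single (⟨0, hd⟩ : Fin d) (1:ℝ)) x|)
      (fun i _ => abs_nonneg _) hx
    have h2 := neg_abs_le (inner ℝ (EuclideanSpace.single (⟨0, hd⟩ : Fin d) (1:ℝ)) x)
    linarith

lemma separated_symm {d : ℕ} {P Q : Finset (Pt d)} (h : Separated P Q) : Separated Q P := by
  obtain ⟨u, c, hu, h1, h2⟩ := h
  refine ⟨-u, -c, neg_ne_zero.2 hu, ?_, ?_⟩
  · intro x hx
    have := h2 x hx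
    rw [inner_neg_left]; linarith
  · intro x hx
    have := h1 x hx
    rw [inner_neg_left]; linarith

lemma separated_empty_left {d : ℕ} (hd : 1 ≤ d) (P : Finset (Pt d)) : Separated ∅ P :=
  separated_symm (separated_empty_right hd P)

/-- Affinely independent points are separated. -/
lemma separated_of_affineIndependent {d : ℕ} (hd : 1 ≤ d) (A B : Finset (Pt d))
    (hAB : Disjoint A B)
    (h : AffineIndependent ℝ (fun x : (A ∪ B : Finset (Pt d)) => (x : Pt d))) :
    Separated A B := by
  classical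
  rcases A.eq_empty_or_nonempty with rfl | ⟨a, ha⟩
  · exact separated_empty_left hd B
  rcases B.eq_empty_or_nonempty with rfl | ⟨b, hb⟩
  · exact separated_empty_right hd A
  have h1 := AffineIndependent.convexHull_inter (s := A ∪ B) h (t₁ := A) (t₂ := B)
    subset_union_left subset_union_right
  have hdis : Disjoint (convexHull ℝ (B : Set (Pt d))) (convexHull ℝ (A : Set (Pt d))) := by
    rw [disjoint_comm, Set.disjoint_iff_inter_eq_empty, ← h1]
    have : (A : Set (Pt d)) ∩ B = ∅ := by
      rw [← Set.disjoint_iff_inter_eq_empty]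
      exact_mod_cast hAB
    rw [this]; simp
  obtain ⟨f, u, v, hf1, huv, hf2⟩ := geometric_hahn_banach_compact_closed
    (convex_convexHull ℝ (B : Set (Pt d))) (B.finite_toSet.isCompact_convexHull ℝ)
    (convex_convexHull ℝ (A : Set (Pt d))) ((A.finite_toSet.isCompact_convexHull ℝ).isClosed) hdis
  obtain ⟨w, hw⟩ := (InnerProductSpace.toDual ℝ (Pt d)).surjective f
  have hw' : ∀ x, f x = inner ℝ w x := by
    intro x; rw [← hw]; simp
  refine ⟨w, v, ?_, ?_, ?_⟩
  · rintro rfl
    have h3 := hf1 b (subset_convexHull ℝ _ (by exact_mod_cast hb))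
    have h4 := hf2 a (subset_convexHull ℝ _ (by exact_mod_cast ha))
    rw [hw'] at h3 h4
    simp at h3 h4
    linarith
  · intro x hx
    rw [← hw']
    exact hf2 x (subset_convexHull ℝ _ (by exact_mod_cast hx))
  · intro x hx
    rw [← hw']
    exact (hf1 x (subset_convexHull ℝ _ (by exact_mod_cast hx))).trans huv

/-- The parameter space of affine functionals on `ℝ^d`. -/
abbrev Par (d : ℕ) : Type := WithLp 2 (Pt d × ℝ)

lemma finrank_par (d : ℕ) : finrank ℝ (Par d) = d + 1 := by
  have h1 : finrank ℝ (Par d) = finrank ℝ (Pt d × ℝ) :=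
    (WithLp.linearEquiv 2 ℝ (Pt d × ℝ)).finrank_eq
  rw [h1, finrank_prod]
  simp

/-- The affine functionals that are at least `1` at `x`, for `x ∈ A`, and at most `-1` else. -/
def K {d : ℕ} (A : Finset (Pt d)) (x : Pt d) : Set (Par d) :=
  {p | (x ∈ A → 1 ≤ inner ℝ p.fst x + p.snd) ∧ (x ∉ A → inner ℝ p.fst x + p.snd ≤ -1)}

lemma continuous_val {d : ℕ} (x : Pt d) :
    Continuous (fun p : Par d => inner ℝ p.fst x + p.snd) := by
  have h1 : Continuous (fun p : Par d => p.fst) := by fun_prop
  have h2 : Continuous (fun p : Par d => p.snd) := by fun_prop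
  fun_prop

lemma isClosed_K {d : ℕ} (A : Finset (Pt d)) (x : Pt d) : IsClosed (K A x) := by
  have hc := continuous_val x
  by_cases hx : x ∈ A
  · have : K A x = {p | 1 ≤ inner ℝ p.fst x + p.snd} := by
      ext p; simp [K, hx]
    rw [this]
    exact isClosed_le continuous_const hc
  · have : K A x = {p | inner ℝ p.fst x + p.snd ≤ -1} := by
      ext p; simp [K, hx]
    rw [this]
    exact isClosed_le hc continuous_const

lemma convex_K {d : ℕ} (A : Finset (Pt d)) (x : Pt d) : Convex ℝ (K A x) := by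
  intro p hp q hq a b ha hb hab
  have e : inner ℝ (a • p + b • q).fst x + (a • p + b • q).snd
      = a * (inner ℝ p.fst x + p.snd) + b * (inner ℝ q.fst x + q.snd) := by
    simp only [WithLp.add_fst, WithLp.smul_fst, WithLp.add_snd, WithLp.smul_snd,
      inner_add_left, real_inner_smul_left, smul_eq_mul]
    ring
  refine ⟨fun hx => ?_, fun hx => ?_⟩
  · rw [e]
    have h1 := hp.1 hx
    have h2 := hq.1 hx
    nlinarith
  · rw [e]
    have h1 := hp.2 hx
    have h2 := hq.2 hx
    nlinarith


/-- A separated set of `d+2` points gives a common point of the sets `K`. -/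
lemma nonempty_of_separated {d : ℕ} (A B S : Finset (Pt d)) (hAB : Disjoint A B)
    (hS : S ⊆ A ∪ B) (hSne : S.Nonempty) (h : Separated (A ∩ S) (B ∩ S)) :
    (⋂ x ∈ S, K A x).Nonempty := by
  obtain ⟨u, c, -, h1, h2⟩ := h
  obtain ⟨x0, hx0, hmin⟩ := exists_min_image S (fun x => |inner ℝ u x - c|) hSne
  have hBx : ∀ x ∈ S, x ∉ A → x ∈ B ∩ S := by
    intro x hx hxA
    have := mem_union.1 (hS hx)
    exact mem_inter.2 ⟨this.resolve_left hxA, hx⟩
  have hm : 0 < |inner ℝ u x0 - c| := by
    rw [abs_pos]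
    by_cases hA : x0 ∈ A
    · have := h1 x0 (mem_inter.2 ⟨hA, hx0⟩)
      intro h; linarith
    · have := h2 x0 (hBx x0 hx0 hA)
      intro h; linarith
  set m := |inner ℝ u x0 - c| with hmdef
  refine ⟨WithLp.toLp 2 (m⁻¹ • u, -(m⁻¹ * c)), ?_⟩
  simp only [Set.mem_iInter]
  intro x hx
  have hx2 := hmin x hx
  have e : inner ℝ (WithLp.toLp 2 (m⁻¹ • u, -(m⁻¹ * c)) : Par d).fst x
      + (WithLp.toLp 2 (m⁻¹ • u, -(m⁻¹ * c)) : Par d).snd = m⁻¹ * (inner ℝ u x - c) := by
    simp only [WithLp.toLp_fst, WithLp.toLp_snd, real_inner_smul_left]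
    ring
  refine ⟨fun hA => ?_, fun hA => ?_⟩
  · rw [e]
    have h3 := h1 x (mem_inter.2 ⟨hA, hx⟩)
    rw [abs_of_pos (by linarith)] at hx2
    have : m⁻¹ * m ≤ m⁻¹ * (inner ℝ u x - c) := mul_le_mul_of_nonneg_left hx2 (by positivity)
    rw [inv_mul_cancel₀ hm.ne'] at this
    exact this
  · rw [e]
    have h3 := h2 x (hBx x hx hA)
    rw [abs_of_neg (by linarith)] at hx2
    have : m⁻¹ * m ≤ m⁻¹ * (-(inner ℝ u x - c)) := mul_le_mul_of_nonneg_left hx2 (by positivity)
    rw [inv_mul_cancel₀ hm.ne'] at this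
    linarith

/-- A common point of the sets `K x` separates. -/
lemma separated_of_mem {d : ℕ} (hd : 1 ≤ d) (A B M : Finset (Pt d)) (hAB : Disjoint A B)
    (p : Par d) (hp : ∀ x ∈ M, p ∈ K A x) : Separated (A ∩ M) (B ∩ M) := by
  by_cases hu : p.fst = 0
  · rcases (A ∩ M).eq_empty_or_nonempty with h | ⟨a, ha⟩
    · rw [h]; exact separated_empty_left hd _
    rcases (B ∩ M).eq_empty_or_nonempty with h | ⟨b, hb⟩
    · rw [h]; exact separated_empty_right hd _
    exfalso
    have h1 := (hp a (mem_inter.1 ha).2).1 (mem_inter.1 ha).1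
    have h2 := (hp b (mem_inter.1 hb).2).2
      (fun h => (disjoint_left.1 hAB h (mem_inter.1 hb).1))
    rw [hu] at h1 h2
    simp at h1 h2
    linarith
  · refine ⟨p.fst, -p.snd, hu, ?_, ?_⟩
    · intro x hx
      have h1 := (hp x (mem_inter.1 hx).2).1 (mem_inter.1 hx).1
      linarith
    · intro x hx
      have h2 := (hp x (mem_inter.1 hx).2).2
        (fun h => (disjoint_left.1 hAB h (mem_inter.1 hx).1))
      linarith

open Classical in
/-- The conclusion of the theorem for all configurations, for a pair `ε`, `δ`. -/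
def Concl (d : ℕ) (ε δ : ℝ) : Prop :=
  ∀ (N : ℕ) (A B : Finset (Pt d)), Disjoint A B → A.card = N → B.card = N →
    (d + 2 ≤ 2 * N ∨ GeneralPosition (A ∪ B)) →
    (1 - ε) * ((2 * N).choose (d + 2)) ≤
      (((A ∪ B).powersetCard (d + 2)).filter (fun S => Separated (A ∩ S) (B ∩ S))).card →
    ∃ A' ⊆ A, ∃ B' ⊆ B, Separated A' B' ∧
      (1 - δ) * N ≤ A'.card ∧ (1 - δ) * N ≤ B'.card

lemma Concl.mono {d : ℕ} {ε δ δ' : ℝ} (h : Concl d ε δ) (hδ : δ ≤ δ') : Concl d ε δ' := by
  intro N A B h1 h2 h3 h4 h5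
  obtain ⟨A', hA', B', hB', hs, h6, h7⟩ := h N A B h1 h2 h3 h4 h5
  have : (1 - δ') * N ≤ (1 - δ) * N :=
    mul_le_mul_of_nonneg_right (by linarith) (by positivity)
  exact ⟨A', hA', B', hB', hs, this.trans h6, this.trans h7⟩

lemma concl_one {d : ℕ} (hd : 1 ≤ d) (ε : ℝ) : Concl d ε 1 := by
  intro N A B h1 h2 h3 h4 h5
  exact ⟨∅, empty_subset _, ∅, empty_subset _, separated_empty_left hd _, by simp, by simp⟩

lemma core {d : ℕ} (hd : 1 ≤ d) (δ : ℝ) (hδ : 0 < δ) :
    ∃ ε0 : ℝ, 0 < ε0 ∧ ∀ ε ≤ ε0, Concl d ε δ := by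
  classical
  obtain ⟨ε0, hε0, hF⟩ := Q136.FH.fracHelly (d + 1) (δ / 2) (by positivity)
  refine ⟨ε0, hε0, ?_⟩
  intro ε hε N A B hAB hA hB hgp hgood
  have hcardU : (A ∪ B).card = 2 * N := by
    rw [card_union_of_disjoint hAB, hA, hB]; ring
  by_cases hN : d + 2 ≤ 2 * N
  · let bad : Finset (Finset (Pt d)) :=
      ((A ∪ B).powersetCard (d + 2)).filter (fun S => ¬ Separated (A ∩ S) (B ∩ S))
    have hbadcard : (bad.card : ℝ) ≤ ε0 * ((A ∪ B).card.choose (d + 1 + 1)) := by
      have h1 := card_filter_add_card_filter_not (s := (A ∪ B).powersetCard (d + 2))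
        (fun S => Separated (A ∩ S) (B ∩ S))
      rw [card_powersetCard, hcardU] at h1
      have h2 : ((((A ∪ B).powersetCard (d + 2)).filter
          (fun S => Separated (A ∩ S) (B ∩ S))).card : ℝ) + bad.card
          = ((2 * N).choose (d + 2) : ℕ) := by
        exact_mod_cast h1
      rw [hcardU]
      have h3 : ε * ((2 * N).choose (d + 2) : ℕ) ≤ ε0 * ((2 * N).choose (d + 2) : ℕ) :=
        mul_le_mul_of_nonneg_right hε (by positivity)
      have h4 : (1 - ε) * ((2 * N).choose (d + 2) : ℕ) ≤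
        ((((A ∪ B).powersetCard (d + 2)).filter
          (fun S => Separated (A ∩ S) (B ∩ S))).card : ℝ) := by
        convert hgood
      have e : d + 1 + 1 = d + 2 := rfl
      rw [e]
      linarith
    obtain ⟨p, M, hM, hp, hMc⟩ := hF (Par d) (finrank_par d) (Pt d) (A ∪ B) (K A)
      (isClosed_K A) (convex_K A) (by rw [hcardU]; exact hN) bad
      (by
        intro S hS hSc hSb
        apply nonempty_of_separated A B S hAB hS
        · rw [← card_pos]; omega
        · by_contra hcon
          exact hSb (mem_filter.2 ⟨mem_powersetCard.2 ⟨hS, hSc⟩, hcon⟩))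
      (by
        intro S hS
        exact mem_powersetCard.1 (mem_filter.1 hS).1)
      hbadcard
    refine ⟨A ∩ M, inter_subset_left, B ∩ M, inter_subset_left,
      separated_of_mem hd A B M hAB p hp, ?_, ?_⟩
    all_goals
      have hMU : M = (A ∩ M) ∪ (B ∩ M) := by
        rw [← union_inter_distrib_right]
        exact (inter_eq_right.2 hM).symm
      have hd2 : Disjoint (A ∩ M) (B ∩ M) :=
        disjoint_of_subset_left inter_subset_left
          (disjoint_of_subset_right inter_subset_left hAB)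
      have h1 : M.card = (A ∩ M).card + (B ∩ M).card := by
        conv_lhs => rw [hMU]
        exact card_union_of_disjoint hd2
      have h2 : (A ∩ M).card ≤ N := by rw [← hA]; exact card_le_card inter_subset_left
      have h3 : (B ∩ M).card ≤ N := by rw [← hB]; exact card_le_card inter_subset_left
      have h1' : (M.card : ℝ) = (A ∩ M).card + (B ∩ M).card := by exact_mod_cast h1
      have h2' : ((A ∩ M).card : ℝ) ≤ N := by exact_mod_cast h2
      have h3' : ((B ∩ M).card : ℝ) ≤ N := by exact_mod_cast h3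
      rw [hcardU] at hMc
      push_cast at hMc
      nlinarith
  · have hgp' : GeneralPosition (A ∪ B) := hgp.resolve_left hN
    have h1 := hgp' (A ∪ B) (le_refl _) (by omega)
    refine ⟨A, le_refl _, B, le_refl _, separated_of_affineIndependent hd A B hAB h1, ?_, ?_⟩
    · rw [hA]
      have : (0:ℝ) ≤ N := by positivity
      nlinarith
    · rw [hB]
      have : (0:ℝ) ≤ N := by positivity
      nlinarith

open Classical in
/-- **Positive-fraction Kirchberger theorem.** For each `d ≥ 1` there is a function `g` with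
`g ε → 0` as `ε → 0+` such that for all `ε > 0`, all `N` and all disjoint sets `A`, `B` of `N`
points of `ℝ^d` (in general position if `2 N ≤ d + 1`, arbitrary otherwise) the following holds.
If at least a `(1 - ε)` fraction of the `(d+2)`-subsets `S` of `A ∪ B` are good (that is, `A ∩ S`
and `B ∩ S` are separated by a hyperplane), then some hyperplane separates some `A' ⊆ A` and
`B' ⊆ B` with `|A'|, |B'| ≥ (1 - g ε) N`. -/
theorem result (d : ℕ) (hd : 1 ≤ d) :
    ∃ g : ℝ → ℝ, Filter.Tendsto g (nhdsWithin 0 (Set.Ioi 0)) (nhds 0) ∧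
      ∀ ε : ℝ, 0 < ε → ∀ (N : ℕ) (A B : Finset (Pt d)),
        Disjoint A B → A.card = N → B.card = N →
        (d + 2 ≤ 2 * N ∨ GeneralPosition (A ∪ B)) →
        (1 - ε) * ((2 * N).choose (d + 2)) ≤
          (((A ∪ B).powersetCard (d + 2)).filter
            (fun S => Separated (A ∩ S) (B ∩ S))).card →
        ∃ A' ⊆ A, ∃ B' ⊆ B, Separated A' B' ∧
          (1 - g ε) * N ≤ A'.card ∧ (1 - g ε) * N ≤ B'.card := by
  let T : ℝ → Set ℝ := fun ε => {δ : ℝ | 0 ≤ δ ∧ Concl d ε δ}
  have hTne : ∀ ε, (T ε).Nonempty := fun ε => ⟨1, zero_le_one, concl_one hd ε⟩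
  have hTbdd : ∀ ε, BddBelow (T ε) := fun ε => ⟨0, fun δ hδ => hδ.1⟩
  refine ⟨fun ε => sInf (T ε) + ε, ?_, ?_⟩
  · rw [Metric.tendsto_nhdsWithin_nhds]
    intro η hη
    obtain ⟨ε0, hε0, h0⟩ := core hd (η / 2) (by positivity)
    refine ⟨min ε0 (η / 2), by positivity, ?_⟩
    intro ε hε hdist
    have hε' : 0 < ε := hε
    rw [dist_zero_right, Real.norm_eq_abs, abs_of_pos hε'] at hdist
    have h1 : sInf (T ε) ≤ η / 2 :=
      csInf_le (hTbdd ε) ⟨by positivity, h0 ε ((hdist.le).trans (min_le_left _ _))⟩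
    have h2 : 0 ≤ sInf (T ε) := le_csInf (hTne ε) (fun δ hδ => hδ.1)
    have h3 : ε < η / 2 := lt_of_lt_of_le hdist (min_le_right _ _)
    rw [dist_zero_right, Real.norm_eq_abs, abs_of_nonneg (by linarith)]
    linarith
  · intro ε hε
    have h1 : sInf (T ε) < sInf (T ε) + ε := by linarith
    obtain ⟨δ, hδ, hlt⟩ := exists_lt_of_csInf_lt (hTne ε) h1
    exact hδ.2.mono hlt.le

end Pool.Agent.Results.MP_ff3a4f_co.PositiveFraction
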